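import Pool.Agent.H789R2.PE.Defs
import Pool.Agent.H789R2.AN.Man
import Pool.Agent.H789R2.AN.Tr

set_option autoImplicit false

open scoped Manifold ContDiff Topology ENNReal
open Set Filter MeasureTheory Metric

namespace Pool.Agent.H789R2.PE

section C

open Pool.Agent.H721R2 Pool.Agent.H789R2.AN

/-- T10 -/
theorem att_univ {X : Type*} [MetricSpace X] [ConnectedSpace X] [MeasurableSpace X]
    [BorelSpace X] {g : X ≃ₜ X} {c : ℝ} (h : LP g c) (ν : Measure X) [IsFiniteMeasure ν]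
    (hν : ν.map g = ν) (hpos : ∀ U : Set X, IsOpen U → U.Nonempty → ν U ≠ 0) (A : Set X)
    (hA : IsAtt g A) : A = univ := by
  sorry

-- BEGIN
theorem T11_abs {X F : Type*} [MetricSpace X] [CompactSpace X] [ConnectedSpace X]
    [MeasurableSpace X] [BorelSpace X] [NormedAddCommGroup F] [NormedSpace ℝ F]
    (S : HypSys X F) (ν : Measure X) [IsFiniteMeasure ν]
    (hν : ν.map S.g = ν) (hpos : ∀ U : Set X, IsOpen U → U.Nonempty → ν U ≠ 0)
    (U V : Set X) (hU : IsOpen U) (hUn : U.Nonempty) (hV : IsOpen V) (hVn : V.Nonempty) :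
    ∃ n : ℕ, (S.g^[n] '' U ∩ V).Nonempty := by
  obtain ⟨c, hc⟩ := exists_LP S
  exact transitive_of_unique hc (fun A hA => att_univ hc ν hν hpos A hA) U V hU hUn hV hVn

/-- T11 (uses T10; like `man_main` in Pool.Agent.H789R2.AN.Man) -/
theorem transitive_of_measure {E : Type*} [NormedAddCommGroup E] [NormedSpace ℝ E]
    [FiniteDimensional ℝ E] {M : Type*} [TopologicalSpace M] [T2Space M] [CompactSpace M]
    [ConnectedSpace M] [ChartedSpace E M] [IsManifold 𝓘(ℝ, E) ∞ M] [MeasurableSpace M]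
    [BorelSpace M] (f : Diffeomorph 𝓘(ℝ, E) 𝓘(ℝ, E) M M 1)
    (Es Eu : ∀ x : M, Submodule ℝ (TangentSpace 𝓘(ℝ, E) x)) (hA : IsAnosov f Es Eu)
    (ν : Measure M) [IsFiniteMeasure ν] (hν : ν.map f = ν)
    (hpos : ∀ U : Set M, IsOpen U → U.Nonempty → ν U ≠ 0) : TopTransitive f := by
  have hfm : Measurable f := f.continuous.measurable
  have hmp : MeasurePreserving f ν ν := ⟨hfm, hν⟩
  obtain ⟨m, e, he, hemb, hinj⟩ := exists_embedding_euclidean_of_compact (I := 𝓘(ℝ, E)) (M := M)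
  let _ : MetricSpace M := hemb.isEmbedding.comapMetricSpace e
  have hiso : ∀ x y : M, dist x y = ‖e x - e y‖ := fun x y => dist_eq_norm (e x) (e y)
  have he1 : ContMDiff 𝓘(ℝ, E) (𝓡 m) 1 e := he.of_le (by simp)
  obtain ⟨n, S, hg, -, -, -⟩ := exists_sys hiso he1 hinj f Es Eu hA
  have hgi : ∀ x, S.g x = f^[n] x := fun x => by
    rw [hg]; rfl
  have hgf : (S.g : M → M) = f^[n] := funext hgi
  have hνg : ν.map S.g = ν := by
    rw [hgf]
    exact (hmp.iterate n).map_eq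
  intro U V hU hUn hV hVn
  obtain ⟨k, hk⟩ := T11_abs S ν hνg hpos U V hU hUn hV hVn
  refine ⟨n * k, ?_⟩
  have h1 : S.g^[k] = f^[n * k] := by
    rw [Function.iterate_mul, hgf]
  rw [h1] at hk
  exact hk
-- END

end C

end Pool.Agent.H789R2.PE
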